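import Pool.Agent.ZPT.Stmts

/-!
Squad ZPT, row PS: modular polynomials.
-/

set_option autoImplicit false

namespace Pool.Agent.ZPT.H62

open Polynomial Pool.Agent.ZPT

theorem ps (hUX : UXStmt) (hHC : HCStmt) (hMK : MKStmt) (hNW : NWStmt) : PSStmt := by
  obtain ⟨U, hU⟩ := hUX
  have hR : ∀ m k : ℕ, ∃ R : ℚ[X], 1 ≤ m →
      ∀ (K : Type) [NormedField K] [CompleteSpace K] [CharZero K],
      (∀ ρ : ℝ, 0 ≤ ρ → ρ < 1 →
        Summable fun n : ℕ => ‖((PowerSeries.coeff n U : ℚ) : K)‖ * ρ ^ n) →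
      ∀ r z : K, 0 < ‖r‖ → ‖r‖ < 1 → IsPrimitiveRoot z m →
        ∑ x ∈ idx m, jv U (z ^ (x.1 * x.2) * r ^ (x.1 ^ 2)) ^ k =
          R.eval₂ (Rat.castHom K) (jv U (r ^ m)) := by
    intro m k
    by_cases hm : 1 ≤ m
    · obtain ⟨R, hR⟩ := hMK U hU m k hm
      exact ⟨R, fun _ => hR⟩
    · exact ⟨0, fun h => absurd h hm⟩
  choose R hR using hR
  have hP : ∀ m : ℕ, ∃ F : ℚ[X][X],
      ∀ (K : Type) [Field K] [CharZero K] (x : K) (s : Finset (ℕ × ℕ)) (y : ℕ × ℕ → K),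
      s.card = (idx m).card →
      (∀ k : ℕ, 1 ≤ k → k ≤ (idx m).card → ∑ i ∈ s, y i ^ k = (R m k).eval₂ (Rat.castHom K) x) →
      ∀ Y : K, ev2 F x Y = ∏ i ∈ s, (Y - y i) := fun m => hNW (idx m).card (R m)
  choose Psi hPsi using hP
  refine ⟨U, Psi, hU, ?_, ?_⟩
  · intro m hm τ hτ y
    obtain ⟨h1, h2, h3, h4, h5⟩ := hHC m hm τ hτ
    have hs : ∀ ρ : ℝ, 0 ≤ ρ → ρ < 1 →
        Summable fun n : ℕ => ‖((PowerSeries.coeff n U : ℚ) : ℂ)‖ * ρ ^ n := by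
      intro ρ h0 hlt
      refine (hU.sm ρ h0 hlt).congr fun n => ?_
      congr 1
      rw [← Complex.ofReal_ratCast, Complex.norm_real, Real.norm_eq_abs]
    refine hPsi m ℂ (J τ) (idx m) (fun x => J (hpt m x τ)) rfl ?_ y
    intro k _ _
    have h := hR m k hm ℂ hs (ee (τ / m)) (ee (1 / m)) h2 h3 h4
    rw [h1, hU.jJ τ hτ] at h
    rw [← h]
    refine Finset.sum_congr rfl ?_
    intro x hx
    rw [(h5 x hx).2, hU.jJ _ (h5 x hx).1]
  · intro p hp h5 K _ _ _ _ hE m hm r z hr0 hr1 hz y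
    have hs : ∀ ρ : ℝ, 0 ≤ ρ → ρ < 1 →
        Summable fun n : ℕ => ‖((PowerSeries.coeff n U : ℚ) : K)‖ * ρ ^ n := by
      intro ρ h0 hlt
      refine Summable.of_nonneg_of_le (fun n => by positivity) (fun n => ?_)
        (summable_geometric_of_lt_one h0 hlt)
      have h1 : ‖((PowerSeries.coeff n U : ℚ) : K)‖ ≤ 1 := by
        rw [hE]
        exact_mod_cast hU.pint p hp h5 n
      calc ‖((PowerSeries.coeff n U : ℚ) : K)‖ * ρ ^ n ≤ 1 * ρ ^ n :=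
            mul_le_mul_of_nonneg_right h1 (pow_nonneg h0 n)
        _ = ρ ^ n := one_mul _
    exact hPsi m K (jv U (r ^ m)) (idx m) (fun x => jv U (z ^ (x.1 * x.2) * r ^ (x.1 ^ 2))) rfl
      (fun k _ _ => hR m k hm K hs r z hr0 hr1 hz) y

end Pool.Agent.ZPT.H62
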