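import Pool.Agent.ZPT.Stmts

/-!
Squad ZPT, rows TP and TQ.
-/

set_option autoImplicit false

namespace Pool.Agent.ZPT.H62

open Polynomial Pool.Agent.ZPT

/-- A primitive root of unity. -/
theorem exPrim (K : Type) [Field K] [CharZero K] [IsAlgClosed K] (m : ℕ) (hm : 1 ≤ m) :
    ∃ z : K, IsPrimitiveRoot z m := by
  haveI : NeZero m := ⟨by omega⟩
  haveI : NeZero (m : K) := ⟨by exact_mod_cast (show m ≠ 0 by omega)⟩
  exact HasEnoughRootsOfUnity.exists_primitiveRoot K m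

theorem normRoot {K : Type} [NormedField K] {r q : K} {m : ℕ} (hm : 1 ≤ m) (hr : r ^ m = q)
    (h0 : 0 < ‖q‖) (h1 : ‖q‖ < 1) : 0 < ‖r‖ ∧ ‖r‖ < 1 := by
  have hn : ‖r‖ ^ m = ‖q‖ := by rw [← norm_pow, hr]
  constructor
  · rw [norm_pos_iff]
    rintro rfl
    rw [norm_zero, zero_pow (by omega)] at hn
    exact absurd hn (ne_of_lt h0)
  · by_contra hc
    push Not at hc
    have := one_le_pow₀ hc (n := m)
    rw [hn] at this
    exact absurd this (not_le.mpr h1)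

theorem normPrim {K : Type} [NormedField K] {z : K} {m : ℕ} (hm : 1 ≤ m)
    (hz : IsPrimitiveRoot z m) : ‖z‖ = 1 := by
  have hn : ‖z‖ ^ m = 1 := by rw [← norm_pow, hz.pow_eq_one, norm_one]
  exact (pow_eq_one_iff_of_nonneg (norm_nonneg z) (by omega)).mp hn

theorem memIdx {m : ℕ} {x : ℕ × ℕ} (hx : x ∈ idx m) : x.1 ∣ m ∧ 1 ≤ x.1 ∧ x.2 < m / x.1 := by
  unfold idx at hx
  rw [Finset.mem_filter, Finset.mem_product, Nat.mem_divisors] at hx
  obtain ⟨⟨⟨h1, h2⟩, h3⟩, h4⟩ := hx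
  exact ⟨h1, Nat.pos_of_dvd_of_pos h1 (Nat.pos_of_ne_zero h2), h4⟩

theorem tp : TPStmt := by
  intro U Psi K _ _ _ hK m hm q y hq0 hq1 hy
  obtain ⟨r, hr⟩ := IsAlgClosed.exists_pow_nat_eq q (by omega : 0 < m)
  obtain ⟨z, hz⟩ := exPrim K m hm
  obtain ⟨hr0, hr1⟩ := normRoot hm hr hq0 hq1
  have h := hK m hm r z hr0 hr1 hz y
  rw [hr, hy] at h
  obtain ⟨x, hx, hxe⟩ := Finset.prod_eq_zero_iff.mp h.symm
  obtain ⟨hd, h1, h2⟩ := memIdx hx
  have hz1 : ‖z‖ = 1 := normPrim hm hz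
  have hn : ‖z ^ (x.1 * x.2) * r ^ (x.1 ^ 2)‖ = ‖r‖ ^ (x.1 ^ 2) := by
    rw [norm_mul, norm_pow, norm_pow, hz1, one_pow, one_mul]
  refine ⟨z ^ (x.1 * x.2) * r ^ (x.1 ^ 2), ?_, ?_, ?_, x.1, h1, ?_⟩
  · rw [hn]; exact pow_pos hr0 _
  · rw [hn]; exact pow_lt_one₀ hr0.le hr1 (by positivity)
  · exact (sub_eq_zero.mp hxe).symm
  · rw [mul_pow, ← pow_mul, ← pow_mul, mul_comm (x.1 * x.2) m, pow_mul, hz.pow_eq_one, one_pow,
      one_mul, mul_comm (x.1 ^ 2) m, pow_mul, hr]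

theorem tq : TQStmt := by
  intro U Psi K _ _ _ hK s t hs ht q q' hq0 hq1 hq0' hq1' hqq
  have hm : 1 ≤ s * t := Nat.mul_pos hs ht
  obtain ⟨r, hr⟩ := IsAlgClosed.exists_pow_nat_eq q (by omega : 0 < s * t)
  obtain ⟨z, hz⟩ := exPrim K (s * t) hm
  obtain ⟨hr0, hr1⟩ := normRoot hm hr hq0 hq1
  have hrne : r ≠ 0 := norm_pos_iff.mp hr0
  have hzs : IsPrimitiveRoot (z ^ s) t := hz.pow (by omega) rfl
  haveI : NeZero t := ⟨by omega⟩
  have h1 : (q' / r ^ (s ^ 2)) ^ t = 1 := by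
    rw [div_pow, ← pow_mul]
    have e : s ^ 2 * t = (s * t) * s := by ring
    rw [e, pow_mul, hr, hqq, div_self]
    exact pow_ne_zero _ (norm_pos_iff.mp hq0')
  obtain ⟨b, hb, hbe⟩ := hzs.eq_pow_of_pow_eq_one h1
  have hq' : z ^ (s * b) * r ^ (s ^ 2) = q' := by
    rw [pow_mul, hbe]
    exact div_mul_cancel₀ _ (pow_ne_zero _ hrne)
  have h := hK (s * t) hm r z hr0 hr1 hz (jv U q')
  rw [hr] at h
  rw [h]
  refine Finset.prod_eq_zero (i := (s, b)) ?_ ?_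
  · unfold idx
    rw [Finset.mem_filter, Finset.mem_product, Nat.mem_divisors, Finset.mem_range]
    have e : s * t / s = t := Nat.mul_div_cancel_left t (by omega)
    refine ⟨⟨⟨Dvd.intro t rfl, by omega⟩, ?_⟩, ?_⟩
    · exact lt_of_lt_of_le hb (Nat.le_mul_of_pos_left t (by omega))
    · rw [e]; exact hb
  · simp only
    rw [hq', sub_self]

end Pool.Agent.ZPT.H62
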