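import Pool.Agent.ZPT.Stmts

/-!
Squad ZPT, row UX: existence of `U = q j`.
-/

set_option autoImplicit false

namespace Pool.Agent.ZPT.H62

open Polynomial Pool.Agent.ZPT

theorem sqAux (q : ℂ) (h0 : q ≠ 0) (h1 : ‖q‖ < 1) : ∃ τ : ℂ, 0 < τ.im ∧ ee τ = q := by
  have hpi : (Real.pi : ℂ) ≠ 0 := by exact_mod_cast Real.pi_ne_zero
  have hne : (2 * Real.pi * Complex.I : ℂ) ≠ 0 := by
    simp [Complex.I_ne_zero, Real.pi_ne_zero]
  have he : (2 * Real.pi * Complex.I : ℂ) * (Complex.log q / (2 * Real.pi * Complex.I)) =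
      Complex.log q := by
    field_simp
  refine ⟨Complex.log q / (2 * Real.pi * Complex.I), ?_, ?_⟩
  · have h2 : Complex.log q / (2 * Real.pi * Complex.I) =
        -(Complex.I * Complex.log q) / (((2 * Real.pi : ℝ)) : ℂ) := by
      push_cast
      rw [div_eq_div_iff hne (by simp [Real.pi_ne_zero])]
      have := Complex.I_mul_I
      linear_combination ((Complex.log q) * 2 * Real.pi) * this
    rw [h2, Complex.div_ofReal_im]
    have h3 : (-(Complex.I * Complex.log q)).im = -Real.log ‖q‖ := by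
      simp [Complex.log_re]
    rw [h3]
    apply div_pos
    · have := Real.log_neg (norm_pos_iff.mpr h0) h1
      linarith
    · positivity
  · unfold ee
    rw [he, Complex.exp_log h0]

theorem ux (hJE : JEStmt) (hEV : EVStmt) (hUE : UEStmt) (hUI : UIStmt) : UXStmt := by
  obtain ⟨A, D, hA0, hD0, hAp, hDp, hAs, hDs, hAD⟩ := hUE
  have hDc : PowerSeries.constantCoeff D = 1 := by
    rw [← PowerSeries.coeff_zero_eq_constantCoeff_apply]; exact hD0
  have hAc : PowerSeries.constantCoeff A = 1 := by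
    rw [← PowerSeries.coeff_zero_eq_constantCoeff_apply]; exact hA0
  have hDne : ∀ q : ℂ, ‖q‖ < 1 → ∑' n : ℕ, ((PowerSeries.coeff n D : ℚ) : ℂ) * q ^ n ≠ 0 := by
    intro q hq
    by_cases h0 : q = 0
    · subst h0
      rw [tsum_eq_single 0]
      · rw [hD0]; simp
      · intro n hn
        rw [zero_pow hn, mul_zero]
    · obtain ⟨τ, hτ, hτq⟩ := sqAux q h0 hq
      have h := (hAD ⟨τ, hτ⟩).2
      have hc : ((⟨τ, hτ⟩ : UpperHalfPlane) : ℂ) = τ := rfl
      rw [hc, hτq] at h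
      intro hz
      rw [hz, mul_zero] at h
      exact ModularForm.discriminant_ne_zero _ h.symm
  obtain ⟨hIs, hIp⟩ := hUI D hD0 hDs hDne
  have hconv : ∀ (B : PowerSeries ℚ), (∀ ρ : ℝ, 0 ≤ ρ → ρ < 1 →
      Summable fun n : ℕ => |((PowerSeries.coeff n B : ℚ) : ℝ)| * ρ ^ n) →
      ∀ q : ℂ, ‖q‖ < 1 →
      Summable (fun n : ℕ => ‖((PowerSeries.coeff n B : ℚ) : ℂ)‖ * ‖q‖ ^ n) := by
    intro B hB q hq
    refine (hB ‖q‖ (norm_nonneg q) hq).congr ?_
    intro n
    congr 1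
    rw [← Complex.ofReal_ratCast, Complex.norm_real, Real.norm_eq_abs]
  refine ⟨A * D⁻¹, ?_, ?_, ?_, ?_⟩
  · rw [PowerSeries.coeff_zero_eq_constantCoeff_apply, map_mul, PowerSeries.constantCoeff_inv,
      hAc, hDc]
    norm_num
  · intro p hp h5 n
    haveI : Fact p.Prime := ⟨hp⟩
    rw [PowerSeries.coeff_mul]
    refine padicNorm.sum_le' ?_ (by norm_num)
    intro x _
    rw [padicNorm.mul]
    exact mul_le_one₀ (hAp p hp h5 _) (padicNorm.nonneg _) (hIp p hp (hDp p hp h5) _)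
  · intro ρ h0 h1
    have hA' : Summable (fun n : ℕ => ‖((PowerSeries.coeff n A : ℚ) : ℝ)‖ * ‖ρ‖ ^ n) := by
      refine (hAs ρ h0 h1).congr fun n => ?_
      rw [Real.norm_eq_abs, Real.norm_eq_abs, abs_of_nonneg h0]
    have hD' : Summable (fun n : ℕ => ‖((PowerSeries.coeff n D⁻¹ : ℚ) : ℝ)‖ * ‖ρ‖ ^ n) := by
      refine (hIs ρ h0 h1).congr fun n => ?_
      rw [Real.norm_eq_abs, Real.norm_eq_abs, abs_of_nonneg h0]
    have h := (hEV ℝ A D⁻¹ ρ hA' hD').1
    refine h.congr fun n => ?_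
    rw [Real.norm_eq_abs, Real.norm_eq_abs, abs_of_nonneg h0]
  · intro τ hτ
    have hq0 : ee τ ≠ 0 := Complex.exp_ne_zero _
    have hq1 : ‖ee τ‖ < 1 := by
      unfold ee
      rw [Complex.norm_exp, Real.exp_lt_one_iff]
      have : (2 * Real.pi * Complex.I * τ : ℂ).re = -(2 * Real.pi * τ.im) := by
        simp
      rw [this]
      have := Real.pi_pos
      have h3 : 0 < 2 * Real.pi * τ.im := by positivity
      linarith
    have e1 := (hEV ℂ A D⁻¹ (ee τ) (hconv A hAs _ hq1) (hconv _ hIs _ hq1)).2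
    have e2 := (hEV ℂ D D⁻¹ (ee τ) (hconv D hDs _ hq1) (hconv _ hIs _ hq1)).2
    rw [PowerSeries.mul_inv_cancel D (by rw [hDc]; norm_num)] at e2
    have e3 : ∑' n : ℕ, ((PowerSeries.coeff n (1 : PowerSeries ℚ) : ℚ) : ℂ) * ee τ ^ n = 1 := by
      rw [tsum_eq_single 0]
      · simp
      · intro n hn
        rw [PowerSeries.coeff_one, if_neg hn]
        simp
    rw [e3] at e2
    have h := hAD ⟨τ, hτ⟩
    have hc : ((⟨τ, hτ⟩ : UpperHalfPlane) : ℂ) = τ := rfl
    rw [hc] at h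
    have hj := hJE ⟨τ, hτ⟩
    rw [hc] at hj
    unfold jv
    rw [e1, h.1, hj, ← h.2]
    have hDn := hDne (ee τ) hq1
    field_simp
    rw [mul_assoc, mul_comm (∑' n : ℕ, ((PowerSeries.coeff n D⁻¹ : ℚ) : ℂ) * ee τ ^ n), ← e2,
      mul_one]

end Pool.Agent.ZPT.H62
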